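import Pool.Agent.H21.TN.ND.Var

/-!
# MP_5ee2d0_ag: rational functions, and divisors of Kodaira dimension at least two

`X` is a projective manifold with `H^1(X, O_X) = 0`.
-/

namespace Pool.Agent.H21.TN.YN

open Pool.Agent.H21.TN.ND

variable {r : ℕ}

/-- The field of the rational functions on `X` is `K`. -/
structure Orders (X : Var r) (K : Type) [Field K] [Algebra ℂ K] where
  /-- The order of a function along a prime divisor, negative at the poles. It is a valuation; for the
  function `0` it is set to be `0`. -/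
  ord : X.Pr → K → ℤ
  zero : ∀ F, ord F 0 = 0
  val : ∀ F f g, f * g ≠ 0 → ord F (f * g) = ord F f + ord F g ∧
    (f + g ≠ 0 → min (ord F f) (ord F g) ≤ ord F (f + g))
  finite : ∀ f, {F | ord F f ≠ 0}.Finite
  /-- the functions `f` with `div f + D ≥ 0` are the sections of `O_X(D)` -/
  sect : ∀ (D : X.Pr →₀ ℕ) (k : ℕ) (f : Fin k → K), LinearIndependent ℂ f →
    (∀ i F, 0 ≤ ord F (f i) + D F) → k ≤ X.h 0 (X.line D)
  /-- linear equivalence -/
  equiv : ∀ D D' : X.Pr →₀ ℕ, X.line D = X.line D' ↔ ∃ f, ∀ F, (D F : ℤ) = D' F + ord F f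
  /-- If `f` is not constant then the functions which are algebraic over `ℂ(f)` are the function field of a
  smooth projective curve. It is rational, because `H^1(X, O_X) = 0`, so this field is `ℂ(g)`; and almost
  all the fibres of the rational map `g` are irreducible. -/
  curve : ∀ f : K, (∀ c, algebraMap ℂ K c ≠ f) → ∃ g : K,
    (∀ u, ¬ AlgebraicIndependent ℂ ![f, u] → u ∈ IntermediateField.adjoin ℂ {g}) ∧
    {t | ¬ ∃ F, ∀ G, G ≠ F → ord G (g - algebraMap ℂ K t) ≤ 0}.Finite

/-- the rational functions on `X` -/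
structure Functions (X : Var r) where
  K : Type
  [fld : Field K]
  [alg : Algebra ℂ K]
  fn : Orders X K

/-- the divisor `D` has Kodaira dimension at least two: the sections of a multiple contain three
algebraically independent ones -/
def Kod (X : Var r) (D : X.Pr →₀ ℕ) : Prop :=
  ∃ k : ℕ, 0 < k ∧ ∀ m : ℕ, (m + 1) * (m + 2) ≤ 2 * X.h 0 ((m * k) • X.line D)

end Pool.Agent.H21.TN.YN
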