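import Pool.Agent.H81.XN.Defs
import Pool.Agent.H21.TN.YN.Functions

/-!
# MP_5ee2d0_ag: pencils of divisors which are orthogonal to the square of a nef class

`X` is a smooth projective variety of dimension `n = m + 4` with `K_X ~ 0` and `H^1(X, O_X) = 0`, and `L` is
nef, `L^3` is numerically trivial and `L^2` is not. The rational functions and the condition `Kod` do not
depend on the dimension.
-/

namespace Pool.Agent.H21.TN.YN

open Pool.Agent.H21.TN.ND Pool.Agent.H54.XN Pool.Agent.H81.XN

variable {r m : ℕ}

/-- The prime divisors and the nef classes of `X` as a variety and for the b-classes. -/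
structure Link (X : Var r) (B : BCl r m) where
  dim : X.n = m + 4
  /-- the prime divisors of `X` -/
  e : X.Pr ≃ {E // B.X E}
  cl_e : ∀ G, B.cl (e G) = X.num.cl G
  /-- nef line bundles on `X` -/
  nef : ∀ x, X.Nef x → B.Nef (B.pb (X.rl x))

/-- Let `D` be a divisor of Kodaira dimension at least two, `W → X` a resolution of the base locus of a
multiple `k D` whose sections define a rational map with an image of dimension at least two, `b` the
free part of the pull back of `k D` to `W`. So the pull back of `k D` is the sum of `b` and of an effective
divisor. -/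
structure Plane (X : Var r) (B : BCl r m) (L : X.P) (D : X.Pr →₀ ℕ) where
  k : ℕ
  b : B.V
  good : Good B ((k : ℝ) • X.rl (X.line D)) b
  /-- the image has dimension at least two -/
  pos : 0 < AA B b b
  /-- Suppose that `b^3.A^(n-3) = 0`. Then the image is a surface, and `b^2` is a positive multiple of the
  class of the general fibre `F` of the map from `W` to it. If moreover `b^2.L.A^(n-4).x = 0` for all `x` then
  the nef class `L` is numerically trivial on `F`, since `A` is nef and big on the general fibres. So, after
  a modification of `W` and with a smooth projective surface `Z`, `W → Z` with connected fibres, the pull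
  back of `L` is numerically equivalent to the pull back of a nef divisor `M` of `Z` with rational
  coefficients (Lehmann 2014, On Eckl's pseudo-effective reduction map; for nef divisors see also Bauer and
  others 2002, A reduction map for nef line bundles), and `L^2.A^(n-2)` is a positive multiple of `M^2`. If
  it is not zero then `M` is big, and multiples of `M` and `L` are linearly equivalent on `W` since
  `H^1(W, O_W) = 0`. -/
  fib : B.I (b ::ₘ b ::ₘ b ::ₘ Multiset.replicate (m + 1) (B.pb B.A)) = 0 →
    (∀ x, B.I (B.pb (X.rl L) ::ₘ x ::ₘ b ::ₘ b ::ₘ Multiset.replicate m (B.pb B.A)) = 0) →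
    AA B (B.pb (X.rl L)) (B.pb (X.rl L)) ≠ 0 → ∃ k : ℕ, 0 < k ∧ X.h 0 (k • L) ≠ 0

/-- The rational functions on `X`, and the divisors of Kodaira dimension at least two, for a nef line bundle
`L`. -/
structure Pencils (X : Var r) (B : BCl r m) (L : X.P) where
  fns : Functions X
  plane : ∀ D, Kod X D → Plane X B L D

namespace Link

variable {X : Var r} {B : BCl r m} (K : Link X B)

/-- the prime divisor `G` of `X` for the b-classes -/
def pr (G : X.Pr) : B.D := K.e G

theorem pr_X (G : X.Pr) : B.X (K.pr G) := (K.e G).2

theorem pr_onto (E : B.D) (h : B.X E) : ∃ G, K.pr G = E :=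
  ⟨K.e.symm ⟨E, h⟩, by rw [pr, K.e.apply_symm_apply]⟩

theorem pr_inj (G G' : X.Pr) (h : K.pr G = K.pr G') : G = G' := K.e.injective (Subtype.ext h)

theorem cl (G : X.Pr) : B.cl (K.pr G) = X.num.cl G := K.cl_e G

end Link

end Pool.Agent.H21.TN.YN
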