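import Pool.Agent.H21.TN.YN.J
import Pool.Agent.H21.TN.YN.Cone

/-!
# Divisors orthogonal to the square of a nef class have Kodaira dimension at most one

`X` is a smooth projective variety of dimension `n` with `H^1(X, O_X) = 0`, and `L` is nef, `L^3 = 0`,
`L^2 ≠ 0`. If there is such a divisor of Kodaira dimension at least two then a multiple of `L` has a section.
-/

namespace Pool.Agent.H21.TN.YN

open Pool.Agent.H21.TN.ND Pool.Agent.H54.XN Pool.Agent.H72.FB4 Pool.Agent.H81.XN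
open scoped BigOperators

variable {r m : ℕ}

/-- the number `x.a.b.c.A^(n-4)` -/
noncomputable def lin (B : BCl r m) (a b c : B.V) : (Fin r → ℝ) →ₗ[ℝ] ℝ where
  toFun x := J B (B.pb x) a b c
  map_add' x y := by rw [BCl.pb_add, I1_add]
  map_smul' t x := by rw [BCl.pb_smul, I1_smul]; rfl

theorem nef3 (B : BCl r m) {a b c : B.V} (ha : B.Nef a) (hb : B.Nef b) (hc : B.Nef c) :
    ∀ x ∈ a ::ₘ b ::ₘ c ::ₘ Multiset.replicate m (B.pb B.A), B.Nef x := by
  intro x hx
  simp only [Multiset.mem_cons] at hx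
  rcases hx with rfl | rfl | rfl | hx
  · exact ha
  · exact hb
  · exact hc
  · rw [Multiset.eq_of_mem_replicate hx]
    exact B.nef_A

theorem primeJ {B : BCl r m} {G : B.D} (hG : B.X G) {a b c : B.V} (ha : B.Nef a)
    (hb : B.Nef b) (hc : B.Nef c) : 0 ≤ J B (B.pb (B.cl G)) a b c :=
  B.prime G hG _ (nef3 B ha hb hc)

theorem projJ {B : BCl r m} (v : B.V) (x y z : Fin r → ℝ) :
    J B v (B.pb x) (B.pb y) (B.pb z) = J B (B.pb (B.cx v)) (B.pb x) (B.pb y) (B.pb z) := by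
  have h := B.proj v (x ::ₘ y ::ₘ z ::ₘ Multiset.replicate m B.A)
  simp only [Multiset.map_cons, Multiset.map_replicate] at h
  exact h

/-- a pseudoeffective class and nef classes -/
theorem Link.psef {X : Var r} {B : BCl r m} (K : Link X B) (x : Vec r) (hx : X.num.Psef x)
    (s : Multiset B.V) (hs : ∀ a ∈ s, B.Nef a) : 0 ≤ B.I (B.pb x ::ₘ s) := by
  refine Num.nonneg_of_add (b := B.I (B.pb X.num.A ::ₘ s)) fun t ht => ?_
  rw [← BCl.I_smul, ← BCl.I_add, ← BCl.pb_smul, ← BCl.pb_add]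
  obtain ⟨k, F, u, hu, e⟩ := hx t ht
  have h1 : B.pb (∑ i, u i • X.num.cl (F i)) = ∑ i, B.pb (u i • X.num.cl (F i)) :=
    map_sum (IsLinearMap.mk' _ B.pb_lin) _ _
  rw [e, h1, BCl.I_sum]
  refine Finset.sum_nonneg fun i _ => ?_
  rw [BCl.pb_smul, BCl.I_smul, ← K.cl]
  exact mul_nonneg (hu i) (B.prime _ (K.pr_X _) _ hs)

theorem Link.psefJ {X : Var r} {B : BCl r m} (K : Link X B) {x : Fin r → ℝ} (hx : X.num.Psef x)
    {a b c : B.V} (ha : B.Nef a) (hb : B.Nef b) (hc : B.Nef c) : 0 ≤ J B (B.pb x) a b c :=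
  K.psef x hx _ (nef3 B ha hb hc)

theorem Plane.nef {X : Var r} {B : BCl r m} {L : X.P} {D : X.Pr →₀ ℕ} (P : Plane X B L D) :
    B.Nef P.b := P.good.1

/-- the pull back of `k D` is the sum of `b` and of an effective divisor -/
theorem Plane.le {X : Var r} {B : BCl r m} {L : X.P} {D : X.Pr →₀ ℕ} (P : Plane X B L D)
    (s : Multiset B.V) (hs : ∀ x ∈ s, B.Nef x) :
    B.I (P.b ::ₘ s) ≤ P.k * B.I (B.pb (X.rl (X.line D)) ::ₘ s) := by
  have h1 := B.eff (B.pb ((P.k : ℝ) • X.rl (X.line D)) - P.b) (by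
      rw [BCl.tr_sub, B.tr_pb, P.good.2.1, sub_self]) (fun E => by
      rw [BCl.o_sub, BCl.o_pb']
      linarith [P.good.2.2 E]) s hs
  rw [BCl.I_sub, BCl.pb_smul, BCl.I_smul] at h1
  linarith

/-- the nef class `L` is numerically trivial on the general fibres of a map to a surface if
`b^2.L.A^(n-3) = 0`, by the Hodge index theorem -/
theorem Plane.zero {X : Var r} {B : BCl r m} {L : X.P} {D : X.Pr →₀ ℕ} (P : Plane X B L D)
    (hL : B.Nef (B.pb (X.rl L)))
    (h : B.I (P.b ::ₘ P.b ::ₘ B.pb (X.rl L) ::ₘ Multiset.replicate (m + 1) (B.pb B.A)) = 0)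
    (x : B.V) :
    B.I (B.pb (X.rl L) ::ₘ x ::ₘ P.b ::ₘ P.b ::ₘ Multiset.replicate m (B.pb B.A)) = 0 := by
  have hs : ∀ y ∈ P.b ::ₘ P.b ::ₘ Multiset.replicate m (B.pb B.A), B.Nef y := fun y hy => by
    simp only [Multiset.mem_cons] at hy
    rcases hy with rfl | rfl | hy
    · exact P.nef
    · exact P.nef
    · rw [Multiset.eq_of_mem_replicate hy]
      exact B.nef_A
  have e1 : B.pb B.A ::ₘ B.pb B.A ::ₘ P.b ::ₘ P.b ::ₘ Multiset.replicate m (B.pb B.A) =
      P.b ::ₘ P.b ::ₘ Multiset.replicate (m + 2) (B.pb B.A) := by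
    simp only [Multiset.replicate_succ, ← Multiset.singleton_add]
    ac_rfl
  have e2 : B.pb (X.rl L) ::ₘ B.pb B.A ::ₘ P.b ::ₘ P.b ::ₘ Multiset.replicate m (B.pb B.A) =
      P.b ::ₘ P.b ::ₘ B.pb (X.rl L) ::ₘ Multiset.replicate (m + 1) (B.pb B.A) := by
    simp only [Multiset.replicate_succ, ← Multiset.singleton_add]
    ac_rfl
  by_contra hne
  have h1 := B.strict_aux _ hs (B.pb (X.rl L)) x (B.pb B.A) (by rw [e1]; exact P.pos)
    (by rw [e2]; exact h) hne
  refine absurd (B.nonneg _ fun y hy => ?_) (not_le.2 h1)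
  simp only [Multiset.mem_cons] at hy
  rcases hy with rfl | rfl | hy
  · exact hL
  · exact hL
  · exact hs y (by simpa only [Multiset.mem_cons] using hy)

theorem Plane.section {X : Var r} {B : BCl r m} {L : X.P} (T : Two B (X.rl L))
    {D : X.Pr →₀ ℕ} (P : Plane X B L D)
    (h0 : J B (B.pb (X.rl (X.line D))) (B.pb (X.rl L)) (B.pb (X.rl L)) (B.pb B.A) = 0) :
    ∃ k : ℕ, 0 < k ∧ X.h 0 (k • L) ≠ 0 := by
  set l := B.pb (X.rl L) with hl
  set a := B.pb B.A with ha
  have hb := P.nef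
  set b := P.b with hbd
  have h1 : J B b l l a = 0 := by
    refine le_antisymm ?_ (nonneg B hb T.nef T.nef B.nef_A)
    have h6 := P.le _ (nef3 B T.nef T.nef B.nef_A)
    change J B b l l a ≤ P.k * J B (B.pb (X.rl (X.line D))) l l a at h6
    rwa [h0, mul_zero] at h6
  -- the form `x.y.L.A^(n-3)`
  have F1 := (toCls B).lor (a := l) (b := a) T.nef B.nef_A
  have h2 : J B l b l a = 0 := by rw [symm12 B]; exact h1
  have h3 : 0 < J B l a l a := by rw [symm23 B]; exact posJ T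
  obtain ⟨h4, -⟩ := F1.isotropic (l := l) (m := b) (a := a) T.nef hb B.nef_A (cubeJ T a) h2 h3
  change J B b b l a = 0 at h4
  -- `b.L` is not zero
  have h5 : 0 < J B b l a a := by
    refine lt_of_le_of_ne (nonneg B hb T.nef B.nef_A B.nef_A) fun h5 => ?_
    have h6 := index B B.nef_A B.nef_A (posJ T) h5.symm
    have h7 : 0 < J B b b a a := by rw [J_AA]; exact P.pos
    exact absurd h7 (not_lt.2 h6)
  -- the form `x.y.b.A^(n-3)`
  have F2 := (toCls B).lor (a := b) (b := a) hb B.nef_A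
  have h6 : J B l l b a = 0 := by rw [symm23 B, symm12 B]; exact h1
  have h7 : J B l b b a = 0 := by rw [symm12 B, symm23 B]; exact h4
  have h8 : 0 < J B l a b a := by rw [symm23 B, symm12 B]; exact h5
  obtain ⟨h9, -⟩ := F2.isotropic (l := l) (m := b) (a := a) T.nef hb B.nef_A h6 h7 h8
  change J B b b b a = 0 at h9
  -- `L` comes from a surface
  rw [ha, J_A] at h4 h9
  exact P.fib h9 (P.zero T.nef h4) T.pos.ne'

/-- the pencil of the divisors with support in `S` -/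
noncomputable def Pencils.pencil {X : Var r} {B : BCl r m} {L : X.P} (C : Pencils X B L)
    (S : Set X.Pr) (hS : ∀ D : X.Pr →₀ ℕ, (∀ F ∈ D.support, F ∈ S) → ¬ Kod X D) : Pencil X S :=
  (C.fns.exists_pencil hS).some

end Pool.Agent.H21.TN.YN
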