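import Pool.Agent.H21.TN.YN.Lef
import Pool.Agent.H21.TN.YN.Plane
import Pool.Agent.H72.FB4.Indep
import Pool.Agent.H81.XN.Spec

/-!
# Case E: the good classes have finitely many components on `X` altogether
-/

namespace Pool.Agent.H21.TN.YN

open Pool.Agent.H54.XN Pool.Agent.H72.FB4 Pool.Agent.H81.XN

variable {r m : ℕ}

/-- If `L.v.A^(n-2) = L.L.A^(n-2)` then the components of `v` on `X` are orthogonal to `L`. -/
theorem orth {B : BCl r m} {L : Fin r → ℝ} (hL : B.Nef (B.pb L)) {v : B.V} (hv : Good B L v)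
    (h : AA B (B.pb L) v = AA B (B.pb L) (B.pb L)) :
    ∀ G, B.X G → B.o v G ≠ 0 → AA B (B.pb L) (B.pb (B.cl G)) = 0 := by
  set l := lin B (B.pb L) (B.pb B.A) (B.pb B.A) with hl
  have hlx : ∀ x, l x = J B (B.pb x) (B.pb L) (B.pb B.A) (B.pb B.A) := fun x => rfl
  have h1 := (B.sum v).map l.toAddMonoidHom l.continuous_of_finiteDimensional
  have h2 : l (B.tr v - B.cx v) = 0 := by
    rw [map_sub, hv.2.1, hlx, hlx, ← projJ, symm12 B v, J_AA, J_AA, h, sub_self]
  have h1' : HasSum (fun G : {G // B.X G} => l (B.o v G • B.cl G)) 0 := by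
    rw [← h2]
    exact h1
  have h3 : ∀ G : {G // B.X G}, 0 ≤ l (B.o v G • B.cl G) := fun G => by
    rw [map_smul, smul_eq_mul, hlx]
    exact mul_nonneg (hv.2.2 _) (primeJ G.2 hL B.nef_A B.nef_A)
  have h4 := (hasSum_zero_iff_of_nonneg h3).1 h1'
  intro G hG hoG
  have h5 := congrFun h4 ⟨G, hG⟩
  change l (B.o v G • B.cl G) = 0 at h5
  rw [map_smul, smul_eq_mul, hlx] at h5
  rcases mul_eq_zero.1 h5 with h6 | h6
  · exact absurd h6 hoG
  · rw [← J_AA, symm12 B]
    exact h6

theorem AA_symm (B : BCl r m) (a b : B.V) : AA B a b = AA B b a := by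
  unfold AA
  rw [Multiset.cons_swap]

/-- the form `x.y.A^(n-2)` -/
noncomputable def hodge (B : BCl r m) (hA : 0 < B.I (Multiset.replicate (m + 4) (B.pb B.A))) :
    Hodge r B.D where
  f x y := AA B (B.pb x) (B.pb y)
  A := B.A
  cl := B.cl
  add x y z := by
    unfold AA
    rw [BCl.pb_add, BCl.I_add]
  mul t x y := by
    unfold AA
    rw [BCl.pb_smul, BCl.I_smul]
  symm x y := AA_symm B _ _
  index x hx := by
    refine B.index _ _ (B.pb B.A) (fun y hy => by
      rw [Multiset.eq_of_mem_replicate hy]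
      exact B.nef_A) ?_ ?_
    · rw [← Multiset.replicate_succ, ← Multiset.replicate_succ]
      exact hA
    · rw [AA_symm] at hx
      exact hx
  index_eq x hx hxx := index_eq hA (by rw [AA_symm] at hx; exact hx) hxx

/-- **F3**, case E. -/
theorem startE (B : BCl r m) (L : Fin r → ℝ) : StartE B L := by
  intro h2 hE
  have hA := A_pos h2.nef h2.pos
  refine (hodge B hA).finite (L := L) h2.pos ?_ ?_ ?_
  · rintro G ⟨hG, w, hw, hpos⟩
    exact orth h2.nef hw (hE w hw) G hG hpos.ne'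
  · rintro G ⟨hG, -⟩
    show 0 < AA B (B.pb B.A) (B.pb (B.cl G))
    rw [AA_symm]
    have h1 := B.prime_pos G hG
    rw [Multiset.replicate_succ] at h1
    exact h1
  · rintro G ⟨hG, -⟩ G' ⟨hG', -⟩ hne
    exact B.dist G G' hG hG' hne

end Pool.Agent.H21.TN.YN
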