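import Pool.Agent.H21.TN.YN.One
import Pool.Agent.H21.TN.YN.StartE
import Pool.Agent.H81.XN.Local
import Pool.Agent.H81.XN.Rat
import Pool.Agent.H88.XN.Main
import Pool.Agent.H52.ND2.Main

/-!
# Sections of nef divisors of numerical dimension two
-/

namespace Pool.Agent.H21.TN.YN

open Pool.Agent.H21.TN.ND Pool.Agent.H54.XN Pool.Agent.H81.XN Pool.Agent.H60.PF

variable {r m : ℕ} {X : Var r} {B : BCl r m} {L : X.P}

/-- **Theorem.** A positive multiple of `L` has a section. -/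
theorem section_of_sys (K : Link X B) (h : X.Divisors) (P : Pencils X B L) {Cu : X.Currents}
    (Fo : X.Forms Cu L) {C : Cur B (X.rl L)} {chi : ℕ → ℤ}
    (S : Sys C chi Fo.Has)
    (T : Two B (X.rl L)) (rat : ∃ q : ℚ, AA B (B.pb (X.rl L)) (B.pb (X.rl L)) = q)
    (rat' : ∀ G, B.X G → ∃ q : ℚ, AA B (B.pb (X.rl L)) (B.pb (B.cl G)) = q)
    (snapper : ∃ Q : Polynomial ℝ, ∀ p : ℕ, (chi p : ℝ) = Q.eval (p : ℝ)) (h0 : chi 0 ≠ 0) :
    ∃ k : ℕ, 0 < k ∧ X.h 0 (k • L) ≠ 0 := by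
  by_contra hno
  push Not at hno
  have hf := fun N => Pool.Agent.H52.ND2.frm (S.aux T rat rat' snapper h0)
    (Pool.Agent.H88.XN.lemmaM B (X.rl L)) (Pool.Agent.H88.XN.extCore B (X.rl L))
    (fun x lam Y hlam => Y.local hlam.le) (fun x lam Y => ratE Y) (fun x lam Y => ratD Y)
    (startE B (X.rl L)) (P.startD K h hno) N
  obtain ⟨k, hk, h1⟩ := P.section_of_forms K h T Fo fun N => by
    obtain ⟨p, hp, q, v, ⟨j, hj⟩, h2⟩ := hf (N + 1)
    exact ⟨p, hp, q, v, fun h => hj (congrFun h j), h2⟩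
  exact h1 (hno k hk)

end Pool.Agent.H21.TN.YN
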