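import Pool.Agent.H21.TN.ND.Var
import Pool.Agent.H21.TN.YN.Defs

/-!
# MP_5ee2d0_ag: smooth projective varieties with trivial canonical class and b-divisors
-/

namespace Pool.Agent.H21.TN.YN

open Pool.Agent.H21.TN.ND Pool.Agent.H54.XN Pool.Agent.H81.XN

/-- A smooth projective variety `X` of dimension `n = m + 4` with `K_X ~ 0` and `H^1(X, O_X) = 0`. -/
structure Mfd (r m : ℕ) where
  X : Var r
  div : X.Divisors
  coh : X.Coh
  cur : X.Currents
  forms : ∀ x, X.Nef x → X.Forms cur x
  /-- the intersection number of `n` line bundles, and an ample line bundle -/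
  Q : Multiset X.P → ℤ
  A : X.P
  /-- the classes of b-divisors on `X` -/
  B : BCl r m
  link : Link X B
  rl_A : X.rl A = B.A
  int : ∀ s : Multiset X.P, B.I (s.map fun x => B.pb (X.rl x)) = Q s
  num : ∀ x y, AA B (B.pb x) (B.pb y) = X.num.f x y
  /-- the closed positive currents in the class of a nef line bundle -/
  curB : ∀ x, X.Nef x → Cur B (X.rl x)
  /-- nef line bundles of numerical dimension two -/
  two : ∀ x (hx : X.Nef x), Q (x ::ₘ x ::ₘ x ::ₘ Multiset.replicate (m + 1) A) = 0 → ¬ X.One x →
    Sys (curB x hx) (fun p => X.chi (p • x)) (forms x hx).Has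
  pencils : ∀ x, X.Nef x → Pencils X B x

end Pool.Agent.H21.TN.YN
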