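import Pool.Agent.H21.TN.ND.Non
import Pool.Agent.H21.TN.YN.MfdDefs
import Pool.Agent.H21.TN.YN.Glue
import Pool.Agent.H21.TN.YN.TwoOf

/-!
# MP_5ee2d0_ag: nef divisors of numerical dimension at most two
-/

namespace Pool.Agent.H21.TN.YN

open Pool.Agent.H21.TN.ND Pool.Agent.H54.XN Pool.Agent.H81.XN

namespace Mfd

variable {r m : ℕ} (M : Mfd r m)

theorem int_AA (x y : M.X.P) : AA M.B (M.B.pb (M.X.rl x)) (M.B.pb (M.X.rl y)) =
    M.Q (x ::ₘ y ::ₘ Multiset.replicate (m + 2) M.A) := by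
  have h := M.int (x ::ₘ y ::ₘ Multiset.replicate (m + 2) M.A)
  rw [Multiset.map_cons, Multiset.map_cons, Multiset.map_replicate, M.rl_A] at h
  exact h

/-- the class of a nef line bundle of numerical dimension two -/
theorem toTwo (x : M.X.P) (hx : M.X.Nef x)
    (h3 : M.Q (x ::ₘ x ::ₘ x ::ₘ Multiset.replicate (m + 1) M.A) = 0) (h1 : ¬ M.X.One x) :
    Two M.B (M.X.rl x) := by
  refine two_of (M.link.nef x hx) ?_ ?_
  · have h := M.int (x ::ₘ x ::ₘ x ::ₘ Multiset.replicate (m + 1) M.A)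
    rw [Multiset.map_cons, Multiset.map_cons, Multiset.map_cons, Multiset.map_replicate, M.rl_A, h3,
      Int.cast_zero] at h
    exact h
  · rw [M.num]
    exact h1

/-- **Theorem.** `X` is a smooth projective variety with `K_X ~ 0`, `H^1(X, O_X) = 0` and `χ(O_X) ≠ 0`. If `x`
is a nef line bundle on `X` of numerical dimension at most two then a positive multiple of `x` has a
nonzero section. -/
theorem effective (hchi : M.X.chi 0 ≠ 0) (x : M.X.P) (hx : M.X.Nef x)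
    (h3 : M.Q (x ::ₘ x ::ₘ x ::ₘ Multiset.replicate (m + 1) M.A) = 0) :
    ∃ k : ℕ, 0 < k ∧ M.X.h 0 (k • x) ≠ 0 := by
  by_cases h1 : M.X.One x
  · exact Var.nonvanishing M.div M.coh M.cur x (M.forms x hx) hx h1 ⟨0, by rwa [zero_smul]⟩
  refine section_of_sys M.link M.div (M.pencils x hx) (M.forms x hx) (M.two x hx h3 h1)
    (M.toTwo x hx h3 h1) ⟨(M.Q (x ::ₘ x ::ₘ Multiset.replicate (m + 2) M.A) : ℤ), by
        rw [M.int_AA, Rat.cast_intCast]⟩ (fun G hG => ?_) ?_ (by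
      show M.X.chi (0 • x) ≠ 0
      rwa [zero_smul])
  · obtain ⟨G, rfl⟩ := M.link.pr_onto G hG
    refine ⟨(M.Q (x ::ₘ M.X.O G ::ₘ Multiset.replicate (m + 2) M.A) : ℤ), ?_⟩
    rw [M.link.cl, M.div.cl_eq, M.int_AA, Rat.cast_intCast]
  · obtain ⟨p, hp⟩ := M.coh.snapper x
    refine ⟨p.map (algebraMap ℚ ℝ), fun k => ?_⟩
    have h := hp (k : ℤ)
    rw [natCast_zsmul] at h
    rw [Polynomial.eval_natCast_map]
    have h' : ((M.X.chi (k • x) : ℚ) : ℝ) = ((p.eval (k : ℚ) : ℚ) : ℝ) := by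
      rw [h]
      norm_cast
    rw [Rat.cast_intCast] at h'
    exact h'

end Mfd

end Pool.Agent.H21.TN.YN
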