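import Pool.Agent.H21.TN.YN.Plane
import Pool.Agent.H60.PF.Start

/-!
# Nef classes of numerical dimension two: the divisorial part
-/

namespace Pool.Agent.H21.TN.YN

open Pool.Agent.H21.TN.ND Pool.Agent.H54.XN Pool.Agent.H72.FB4 Pool.Agent.H60.PF Pool.Agent.H81.XN
open scoped BigOperators

variable {r m : ℕ}

/-- The good b-divisors with finitely many components on `X`. -/
abbrev FGood (B : BCl r m) (L : Fin r → ℝ) : Type :=
  {v : B.V // Good B L v ∧ {G | B.X G ∧ B.o v G ≠ 0}.Finite}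

theorem FGood.finite {B : BCl r m} {L : Fin r → ℝ} (w : FGood B L) :
    (Function.support fun G : {G // B.X G} => B.o w.1 G).Finite := by
  have h := w.2.2
  refine Set.Finite.of_finite_image (f := fun G : {G // B.X G} => G.1) (h.subset ?_)
    Subtype.val_injective.injOn
  rintro _ ⟨G, hG, rfl⟩
  exact ⟨G.2, hG⟩

/-- the coefficients on `X` -/
noncomputable def FGood.X {B : BCl r m} {L : Fin r → ℝ} (w : FGood B L) : {G // B.X G} →₀ ℝ :=
  Finsupp.ofSupportFinite _ w.finite

theorem FGood.X_apply {B : BCl r m} {L : Fin r → ℝ} (w : FGood B L) (G : {G // B.X G}) :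
    w.X G = B.o w.1 G := rfl

/-- the class of the divisor on `X` -/
theorem FGood.sum_X {B : BCl r m} {L : Fin r → ℝ} (w : FGood B L) :
    (w.X.sum fun G t => t • B.cl G.1) = L - B.cx w.1 := by
  have h1 := B.sum w.1
  rw [w.2.1.2.1] at h1
  have h2 : HasSum (fun G : {G // B.X G} => B.o w.1 G • B.cl G)
      (∑ G ∈ w.X.support, B.o w.1 G • B.cl G) :=
    hasSum_sum_of_ne_finset_zero fun G hG => by
      have : w.X G = 0 := Finsupp.notMem_support_iff.1 hG
      rw [FGood.X_apply] at this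
      rw [this, zero_smul]
  exact h2.unique h1

section

variable {B : BCl r m} {L : Fin r → ℝ} (T : Two B L)

include T

/-- the components of a good b-divisor on `X` -/
theorem supp_good (v : B.V) (hv : Good B L v) (G : B.D) (hX : B.X G) (hG : B.o v G ≠ 0) :
    J B (B.pb (B.cl G)) (B.pb L) (B.pb L) (B.pb B.A) = 0 := by
  have h1 := (B.sum v).map (lin B (B.pb L) (B.pb L) (B.pb B.A)).toAddMonoidHom
    (lin B (B.pb L) (B.pb L) (B.pb B.A)).continuous_of_finiteDimensional
  have h2 : ∀ G : {G // B.X G}, 0 ≤ (lin B (B.pb L) (B.pb L) (B.pb B.A)) (B.o v G • B.cl G) := by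
    intro G
    rw [map_smul, smul_eq_mul]
    exact mul_nonneg (hv.2.2 _) (primeJ G.2 T.nef T.nef B.nef_A)
  have h3 : (lin B (B.pb L) (B.pb L) (B.pb B.A)) (B.tr v - B.cx v) ≤ 0 := by
    rw [map_sub, hv.2.1]
    show J B (B.pb L) (B.pb L) (B.pb L) (B.pb B.A) - J B (B.pb (B.cx v)) (B.pb L) (B.pb L) (B.pb B.A) ≤ 0
    rw [cubeJ T, ← projJ]
    have := nonneg B hv.1 T.nef T.nef B.nef_A
    linarith
  have h4 := le_hasSum h1 ⟨G, hX⟩ fun G' _ => h2 G'
  have h5 := h2 ⟨G, hX⟩
  have h6 : (lin B (B.pb L) (B.pb L) (B.pb B.A)) (B.o v G • B.cl G) = 0 :=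
    le_antisymm (h4.trans h3) h5
  rw [map_smul, smul_eq_mul] at h6
  exact (mul_eq_zero.1 h6).resolve_left hG

omit T in
/-- a relation moves a good b-divisor -/
theorem move_good {v : B.V} (hv : Good B L v) (n : B.D →₀ ℝ) (hn : ∀ G ∈ n.support, B.X G)
    (h0 : (n.sum fun G t => t • B.cl G) = 0) (hpos : ∀ G, B.X G → 0 ≤ B.o v G + n G) :
    ∃ w, Good B L w ∧ ∀ G, B.X G → B.o w G = B.o v G + n G := by
  obtain ⟨z, h1, h2, h3⟩ := B.prin n hn h0
  have h4 := h3 v hv.1
  have h5 : ∀ G, B.X G → B.o (v + z) G = B.o v G + n G := fun G hG => by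
    rw [BCl.o_add, h2 G hG]
  refine ⟨v + z, ⟨h4, by rw [BCl.tr_add, h1, add_zero, hv.2.1], ?_⟩, h5⟩
  exact B.neg _ h4 fun G hG => by rw [h5 G hG]; exact hpos G hG

/-- the data of `Move` -/
noncomputable def toMove : Move r {G // B.X G} (FGood B L) where
  X := FGood.X
  cl G := B.cl G
  Good _ := True
  S := {G | J B (B.pb (B.cl G)) (B.pb L) (B.pb L) (B.pb B.A) = 0}
  nonneg w _ G := w.2.1.2.2 G
  supp w _ G hG := supp_good T w.1 w.2.1 G.1 G.2 hG
  move w _ n h0 hpos := by
    classical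
    let n' : B.D →₀ ℝ := n.mapDomain Subtype.val
    have hn' : ∀ G : {G // B.X G}, n' G = n G := fun G =>
      Finsupp.mapDomain_apply Subtype.val_injective n G
    obtain ⟨v, hv, he⟩ := move_good w.2.1 n' (fun G hG => by
      have h1 := Finsupp.mapDomain_support hG
      obtain ⟨G', _, rfl⟩ := Finset.mem_image.1 h1
      exact G'.2) (by
      rw [Finsupp.sum_mapDomain_index (h := fun G t => t • B.cl G) (fun _ => zero_smul _ _)
        (fun _ _ _ => add_smul _ _ _)]
      exact h0) (fun G hG => by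
      have h1 := hpos ⟨G, hG⟩
      rw [FGood.X_apply, ← hn'] at h1
      exact h1)
    have hfin : {G | B.X G ∧ B.o v G ≠ 0}.Finite := by
      refine (w.2.2.union (n'.support.finite_toSet)).subset ?_
      rintro G ⟨hG, h1⟩
      by_contra h2
      rw [Set.mem_union, not_or] at h2
      apply h1
      rw [he G hG]
      have h3 : B.o w.1 G = 0 := by
        by_contra h4
        exact h2.1 ⟨hG, h4⟩
      have h4 : n' G = 0 := by
        by_contra h5
        exact h2.2 (Finset.mem_coe.2 (Finsupp.mem_support_iff.2 h5))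
      rw [h3, h4, add_zero]
    refine ⟨⟨v, hv, hfin⟩, trivial, ?_⟩
    ext G
    rw [FGood.X_apply, Finsupp.add_apply, FGood.X_apply, he G.1 G.2, hn']
  most S₀ c hc := by
    classical
    obtain ⟨v, h1, h2, h3, h4, h5⟩ := B.most L T.nef (fun E => B.X E ∧ E ∉ S₀.image Subtype.val)
      (S₀.image Subtype.val) fun E => if h : B.X E then c ⟨E, h⟩ else 0
    have hsum : ∀ v : B.V, (∑ E ∈ S₀.image Subtype.val,
        (if h : B.X E then c ⟨E, h⟩ else 0) * B.o v E) = ∑ G ∈ S₀, c G * B.o v G := by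
      intro v
      rw [Finset.sum_image fun x _ y _ h => Subtype.val_injective h]
      refine Finset.sum_congr rfl fun G _ => ?_
      rw [dif_pos G.2]
    have hfin : {G | B.X G ∧ B.o v G ≠ 0}.Finite := by
      refine (S₀.image Subtype.val).finite_toSet.subset ?_
      rintro G ⟨hG, h6⟩
      by_contra h7
      exact h6 (h4 G ⟨hG, h7⟩)
    refine ⟨⟨v, ⟨h1, h2, h3⟩, hfin⟩, trivial, fun G hG => ?_, fun w' _ hw' => ?_⟩
    · refine h4 G.1 ⟨G.2, fun h6 => hG ?_⟩
      obtain ⟨G', h7, h8⟩ := Finset.mem_image.1 h6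
      rwa [← Subtype.val_injective h8]
    · have h6 := h5 w'.1 w'.2.1.1 w'.2.1.2.1 w'.2.1.2.2 (fun E hE => by
        refine hw' ⟨E, hE.1⟩ fun h7 => hE.2 (Finset.mem_image.2 ⟨_, h7, rfl⟩))
      rw [hsum, hsum] at h6
      exact h6

/-- **F2.** There is a good b-divisor with maximal `y.L.A.A`; it has finitely many components on `X`, and
their classes are linearly independent. -/
theorem start (hfin : ∃ S₀ : Set B.D, S₀.Finite ∧ (∀ F ∈ S₀, B.X F) ∧
      ∀ F, B.X F → J B (B.pb (B.cl F)) (B.pb L) (B.pb L) (B.pb B.A) = 0 →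
        ∃ F₀ ∈ S₀, ∃ c : ℝ, 0 < c ∧ B.cl F = c • B.cl F₀) :
    ∃ v, Good B L v ∧ (∀ w, Good B L w →
        J B (B.pb L) v (B.pb B.A) (B.pb B.A) ≤ J B (B.pb L) w (B.pb B.A) (B.pb B.A)) ∧
      {G | B.X G ∧ B.o v G ≠ 0}.Finite ∧
      ∀ n : B.D →₀ ℝ, (∀ G, n G ≠ 0 → B.X G ∧ B.o v G ≠ 0) →
        (n.sum fun G t => t • B.cl G) = 0 → n = 0 := by
  classical
  obtain ⟨S₀, hS₀, hX₀, hcl⟩ := hfin
  have hb : ∀ G : {G // B.X G}, 0 ≤ lin B (B.pb L) (B.pb B.A) (B.pb B.A) (B.cl G) := fun G =>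
    primeJ G.2 T.nef B.nef_A B.nef_A
  obtain ⟨w, -, hmax, hind⟩ := (toMove T).start (lin B (B.pb L) (B.pb B.A) (B.pb B.A)) hb
    ⟨{G | G.1 ∈ S₀}, hS₀.preimage Subtype.val_injective.injOn, fun G hG => by
      obtain ⟨F₀, h1, h2⟩ := hcl G.1 G.2 hG
      exact ⟨⟨F₀, hX₀ F₀ h1⟩, h1, h2⟩⟩
  have hval : ∀ v : B.V, J B (B.pb L) v (B.pb B.A) (B.pb B.A) =
      lin B (B.pb L) (B.pb B.A) (B.pb B.A) (B.cx v) := fun v => by
    show _ = J B (B.pb (B.cx v)) _ _ _
    rw [symm12 B, projJ]
  have hcx : ∀ w : FGood B L, (toMove T).cx w = L - B.cx w.1 := fun w => w.sum_X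
  have hmax' : ∀ w' : FGood B L, lin B (B.pb L) (B.pb B.A) (B.pb B.A) (L - B.cx w'.1) ≤
      lin B (B.pb L) (B.pb B.A) (B.pb B.A) (L - B.cx w.1) := fun w' => by
    rw [← hcx, ← hcx]
    exact hmax w' trivial
  refine ⟨w.1, w.2.1, fun v hv => ?_, w.2.2, fun n hn h0 => ?_⟩
  · -- a good b-divisor with infinitely many components
    have h1 := (B.sum v).map (lin B (B.pb L) (B.pb B.A) (B.pb B.A)).toAddMonoidHom
      (lin B (B.pb L) (B.pb B.A) (B.pb B.A)).continuous_of_finiteDimensional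
    have h2 : lin B (B.pb L) (B.pb B.A) (B.pb B.A) (B.tr v - B.cx v) ≤
        lin B (B.pb L) (B.pb B.A) (B.pb B.A) (L - B.cx w.1) := by
      refine hasSum_le_of_sum_le h1 fun s => ?_
      let g : B.D → ℝ := fun E => if E ∈ s.image Subtype.val then B.o v E else 0
      obtain ⟨u, hu1, hu2, hu3, hu4, hu5, -⟩ := B.least L g
        ⟨v, hv.1, hv.2.1, hv.2.2, fun E => by
          show (if E ∈ s.image Subtype.val then B.o v E else 0) ≤ _
          split_ifs
          · exact le_rfl
          · exact hv.2.2 E⟩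
      refine le_trans ?_ (hmax' ⟨u, ⟨hu1, hu2, hu3⟩,
        hu5 ((s.image Subtype.val).finite_toSet.subset fun E hE => by
          by_contra h3
          exact hE (if_neg h3))⟩)
      have h3 := (B.sum u).map (lin B (B.pb L) (B.pb B.A) (B.pb B.A)).toAddMonoidHom
        (lin B (B.pb L) (B.pb B.A) (B.pb B.A)).continuous_of_finiteDimensional
      rw [hu2] at h3
      refine le_trans (Finset.sum_le_sum fun G hG => ?_) (sum_le_hasSum s (fun G _ => ?_) h3)
      · show lin B _ _ _ (B.o v G • B.cl G) ≤ lin B _ _ _ (B.o u G • B.cl G)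
        rw [map_smul, map_smul, smul_eq_mul, smul_eq_mul]
        refine mul_le_mul_of_nonneg_right ?_ (hb G)
        have h4 := hu4 G
        have h5 : g G = B.o v G := if_pos (Finset.mem_image_of_mem _ hG)
        rwa [h5] at h4
      · show 0 ≤ lin B _ _ _ (B.o u G • B.cl G)
        rw [map_smul, smul_eq_mul]
        exact mul_nonneg (hu3 _) (hb G)
    rw [hv.2.1, map_sub, map_sub] at h2
    rw [hval, hval]
    linarith
  · let n' : {G // B.X G} →₀ ℝ := n.comapDomain Subtype.val Subtype.val_injective.injOn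
    have hsupp : ∀ G, n G ≠ 0 → B.X G := fun G hG => (hn G hG).1
    have hmap : n'.mapDomain Subtype.val = n := by
      ext G
      by_cases hG : B.X G
      · have := Finsupp.mapDomain_apply (f := fun G : {G // B.X G} => G.1) Subtype.val_injective n' ⟨G, hG⟩
        exact this
      · rw [Finsupp.mapDomain_of_notMem_range]
        · by_contra h1
          exact hG (hsupp G (Ne.symm h1))
        · rintro ⟨G', rfl⟩
          exact hG G'.2
    have h1 : n' = 0 := by
      refine hind n' (fun G hG => ?_) ?_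
      · exact (hn G.1 hG).2
      · have h2 := Finsupp.sum_mapDomain_index (s := n') (f := fun G : {G // B.X G} => G.1)
          (h := fun G t => t • B.cl G) (fun _ => zero_smul _ _) (fun _ _ _ => add_smul _ _ _)
        refine h2.symm.trans ?_
        show ((n'.mapDomain Subtype.val).sum fun G t => t • B.cl G) = 0
        rw [hmap]
        exact h0
    rw [← hmap, h1, Finsupp.mapDomain_zero]

end

end Pool.Agent.H21.TN.YN
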