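import Pool.Agent.H21.TN.YN.Cone

/-!
# From differential forms to sections

`X` is a projective manifold with `H^1(X, O_X) = 0`, `L` a nef line bundle, and for infinitely many `m`
there is a nonzero differential form of some degree with values in `L^m`. Let `φ` be a linear form which
is zero on `L` and nonnegative on pseudoeffective classes. If the cone generated by the prime divisors on
which `φ` is zero is closed then a positive multiple of `L` has a section.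
-/

namespace Pool.Agent.H21.TN.YN

open Pool.Agent.H21.TN.ND

theorem pigeon (n : ℕ) (P : ℕ → ℕ → Prop) (h : ∀ N : ℕ, ∃ m, N < m ∧ ∃ p, p ≤ n ∧ P p m) :
    ∃ p, p ≤ n ∧ ∀ N : ℕ, ∃ m, N < m ∧ P p m := by
  by_contra hcon
  push Not at hcon
  have h1 : ∀ p, ∃ N, p ≤ n → ∀ m, N < m → ¬ P p m := by
    intro p
    by_cases hp : p ≤ n
    · obtain ⟨N, hN⟩ := hcon p hp
      exact ⟨N, fun _ => hN⟩
    · exact ⟨0, fun h => absurd h hp⟩
  choose N hN using h1
  obtain ⟨m, hm, p, hp, hP⟩ := h (∑ p ∈ Finset.range (n + 1), N p)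
  refine hN p hp m (lt_of_le_of_lt ?_ hm) hP
  exact Finset.single_le_sum (f := N) (fun _ _ => Nat.zero_le _)
    (Finset.mem_range.2 (Nat.lt_succ_of_le hp))

/-- **The end.** -/
theorem section_of_forms {r : ℕ} {X : Var r} (h : X.Divisors) {C : X.Currents} {L : X.P}
    (F : X.Forms C L) (hs : ∀ N : ℕ, ∃ m, N < m ∧ ∃ p v, v ≠ 0 ∧ F.sec p m v)
    (φ : Vec r →ₗ[ℝ] ℝ) (hcl : ∀ G, 0 ≤ φ (X.num.cl G)) (hpsef : ∀ Q, X.num.Psef Q → 0 ≤ φ Q)
    (hL : φ (X.rl L) = 0) (P : Pencil X {G | φ (X.num.cl G) = 0}) :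
    ∃ m : ℕ, 0 < m ∧ X.h 0 (m • L) ≠ 0 := by
  have h' : ∀ N : ℕ, ∃ m, N < m ∧ ∃ p, p ≤ X.n ∧ ∃ v, v ≠ 0 ∧ F.sec p m v := by
    intro N
    obtain ⟨m, hm, p, v, hv, hs⟩ := hs N
    refine ⟨m, hm, p, ?_, v, hv, hs⟩
    by_contra hp
    rw [not_le] at hp
    apply hv
    funext i
    have h0 : X.n.choose p = 0 := Nat.choose_eq_zero_of_lt hp
    have h1 := i.2
    omega
  obtain ⟨p, -, hp⟩ := pigeon X.n (fun p m => ∃ v, v ≠ 0 ∧ F.sec p m v) h'
  obtain ⟨Q, hQ, hM⟩ := F.split h p fun B => by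
    obtain ⟨m, hm, v, hv, hs⟩ := hp B
    exact ⟨m, v, hm, hv, hs⟩
  have hE : EffIn X.num {G | φ (X.num.cl G) = 0} (X.rl L) := by
    refine P.closed h (X.rl L) Q fun B => ?_
    obtain ⟨M, x, hB, hx, e⟩ := hM B
    refine ⟨M, x, hB, eff_in φ hcl hx ?_, e⟩
    have h1 := congrArg φ e
    rw [map_add, map_smul, hL, smul_zero] at h1
    have h2 := hpsef Q hQ
    linarith
  exact h.effective L hE.eff

end Pool.Agent.H21.TN.YN
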