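import Pool.Agent.H54.XN.Lin
import Pool.Agent.H72.FB4.Cls
import Pool.Agent.H21.TN.YN.Defs

/-!
# The intersection numbers `a.b.c.d.A^(n-4)`
-/

namespace Pool.Agent.H21.TN.YN

open Pool.Agent.H54.XN Pool.Agent.H72.FB4 Pool.Agent.H81.XN

variable {r m : ℕ} (B : BCl r m)

/-- the number `a.b.c.d.A^(n-4)` -/
noncomputable def J (a b c d : B.V) : ℝ :=
  B.I (a ::ₘ b ::ₘ c ::ₘ d ::ₘ Multiset.replicate m (B.pb B.A))

theorem symm12 (a b c d : B.V) : J B a b c d = J B b a c d := by
  unfold J; rw [Multiset.cons_swap]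

theorem symm23 (a b c d : B.V) : J B a b c d = J B a c b d := by
  unfold J; rw [Multiset.cons_swap b c]

theorem symm34 (a b c d : B.V) : J B a b c d = J B a b d c := by
  unfold J; rw [Multiset.cons_swap c d]

theorem I1_add (a a' b c d : B.V) : J B (a + a') b c d = J B a b c d + J B a' b c d :=
  (IsLinearMap.mk' _ (B.I_lin _)).map_add a a'

theorem I1_sub (a a' b c d : B.V) : J B (a - a') b c d = J B a b c d - J B a' b c d :=
  (IsLinearMap.mk' _ (B.I_lin _)).map_sub a a'

theorem I1_smul (t : ℝ) (a b c d : B.V) : J B (t • a) b c d = t * J B a b c d :=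
  (IsLinearMap.mk' _ (B.I_lin _)).map_smul t a

theorem I2_add (a b b' c d : B.V) : J B a (b + b') c d = J B a b c d + J B a b' c d := by
  rw [symm12, I1_add, symm12 B a b, symm12 B a b']

theorem I2_smul (t : ℝ) (a b c d : B.V) : J B a (t • b) c d = t * J B a b c d := by
  rw [symm12, I1_smul, symm12 B a b]

theorem rot (a b c d : B.V) : J B a b c d = J B d a b c := by
  rw [symm34, symm23, symm12]

theorem I4_add (a b c d d' : B.V) : J B a b c (d + d') = J B a b c d + J B a b c d' := by
  rw [rot, I1_add, rot B a b c d, rot B a b c d']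

theorem I4_sub (a b c d d' : B.V) : J B a b c (d - d') = J B a b c d - J B a b c d' := by
  rw [rot, I1_sub, rot B a b c d, rot B a b c d']

theorem I4_smul (t : ℝ) (a b c d : B.V) : J B a b c (t • d) = t * J B a b c d := by
  rw [rot, I1_smul, rot B a b c d]

theorem nef_cons {a b c d : B.V} (ha : B.Nef a) (hb : B.Nef b) (hc : B.Nef c) (hd : B.Nef d) :
    ∀ x ∈ a ::ₘ b ::ₘ c ::ₘ d ::ₘ Multiset.replicate m (B.pb B.A), B.Nef x := by
  intro x hx
  simp only [Multiset.mem_cons] at hx
  rcases hx with rfl | rfl | rfl | rfl | hx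
  · exact ha
  · exact hb
  · exact hc
  · exact hd
  · rw [Multiset.eq_of_mem_replicate hx]
    exact B.nef_A

theorem nonneg {a b c d : B.V} (ha : B.Nef a) (hb : B.Nef b) (hc : B.Nef c) (hd : B.Nef d) :
    0 ≤ J B a b c d := B.nonneg _ (nef_cons B ha hb hc hd)

/-- the b-classes -/
noncomputable def toCls : Cls where
  V := B.V
  I := J B
  Nef := {v | B.Nef v}
  add x y a b c := I1_add B x y a b c
  smul t x a b c := I1_smul B t x a b c
  swap := symm12 B
  swap' := symm23 B
  swap'' := symm34 B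
  nef_add a ha b hb := B.nef_add a b ha hb
  nef_smul a ha t ht := B.nef_smul t a ht ha
  nonneg a ha b hb c hc d hd := nonneg B ha hb hc hd
  span x := by
    obtain ⟨a, b, ha, hb, e⟩ := B.gen x
    exact ⟨a, ha, b, hb, e⟩
  hodge a ha b hb h _ x h1 h2 := by
    refine B.index (a ::ₘ b ::ₘ Multiset.replicate m (B.pb B.A)) x h ?_ h1 ?_
    · intro y hy
      simp only [Multiset.mem_cons] at hy
      rcases hy with rfl | rfl | hy
      · exact ha
      · exact hb
      · rw [Multiset.eq_of_mem_replicate hy]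
        exact B.nef_A
    · rw [Multiset.cons_swap]
      exact h2

theorem cubeJ {B : BCl r m} {L : Fin r → ℝ} (T : Two B L) (v : B.V) :
    J B (B.pb L) (B.pb L) (B.pb L) v = 0 := T.cube _

theorem J_AA (B : BCl r m) (a b : B.V) : J B a b (B.pb B.A) (B.pb B.A) = AA B a b := by
  unfold J AA
  rw [Multiset.replicate_succ, Multiset.replicate_succ]

theorem J_A (B : BCl r m) (a b c : B.V) : J B a b c (B.pb B.A) =
    B.I (a ::ₘ b ::ₘ c ::ₘ Multiset.replicate (m + 1) (B.pb B.A)) := by
  unfold J
  rw [Multiset.replicate_succ]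

theorem posJ {B : BCl r m} {L : Fin r → ℝ} (T : Two B L) :
    0 < J B (B.pb L) (B.pb L) (B.pb B.A) (B.pb B.A) := by
  rw [J_AA]; exact T.pos

theorem index (B : BCl r m) {a b u v : B.V} (ha : B.Nef a) (hb : B.Nef b) (h1 : 0 < J B v v a b)
    (h2 : J B u v a b = 0) : J B u u a b ≤ 0 :=
  B.index _ u v (fun y hy => by
    simp only [Multiset.mem_cons] at hy
    rcases hy with rfl | rfl | hy
    · exact ha
    · exact hb
    · rw [Multiset.eq_of_mem_replicate hy]
      exact B.nef_A) h1 h2

end Pool.Agent.H21.TN.YN
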