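import Pool.Agent.H21.TN.YN.Claim
import Pool.Agent.H81.XN.Spec
import Pool.Agent.H21.TN.YN.End

/-!
# Nef classes of numerical dimension two: sections
-/

namespace Pool.Agent.H21.TN.YN

open Pool.Agent.H21.TN.ND Pool.Agent.H54.XN Pool.Agent.H72.FB4 Pool.Agent.H60.PF Pool.Agent.H81.XN
open scoped BigOperators

variable {r m : ℕ}

section

variable {X : Var r} {B : BCl r m} {L : X.P} (K : Link X B) (h : X.Divisors)

include h in
theorem rl_line (D : X.Pr →₀ ℕ) : X.rl (X.line D) = ∑ G ∈ D.support, (D G : ℝ) • X.num.cl G := by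
  classical
  induction D using Finsupp.induction with
  | zero => rw [Var.line_zero, h.rl_zero]; simp
  | single_add G k D hG hk ih =>
    rw [Var.line_add, h.rl_add, Var.line_single, h.rl_nsmul, ← h.cl_eq, ih,
      Finsupp.support_single_add hG hk, Finset.sum_cons]
    congr 1
    · rw [Finsupp.add_apply, Finsupp.single_eq_same, Finsupp.notMem_support_iff.1 hG, add_zero]
    · refine Finset.sum_congr rfl fun G' hG' => ?_
      rw [Finsupp.add_apply, Finsupp.single_eq_of_ne, zero_add]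
      rintro rfl
      exact hG hG'

include h in
/-- **Claim F, (i).** If no positive multiple of `L` has a section then the prime divisors `G` with
`L^2.G = 0` have a pencil. -/
theorem Pencils.exists_pencil (C : Pencils X B L) (T : Two B (X.rl L))
    (hno : ∀ k : ℕ, 0 < k → X.h 0 (k • L) = 0) :
    Nonempty (Pencil X {G | lin B (B.pb (X.rl L)) (B.pb (X.rl L)) (B.pb B.A) (X.num.cl G) = 0}) := by
  refine ⟨C.pencil _ fun D hD hK => ?_⟩
  have h2 : lin B (B.pb (X.rl L)) (B.pb (X.rl L)) (B.pb B.A) (X.rl (X.line D)) = 0 := by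
    rw [rl_line h, map_sum]
    refine Finset.sum_eq_zero fun G hG => ?_
    rw [map_smul, smul_eq_mul]
    exact mul_eq_zero_of_right _ (hD G hG)
  obtain ⟨k, hk, h3⟩ := (C.plane D hK).section T h2
  exact h3 (hno k hk)

include K h

/-- **F1.** Differential forms with values in infinitely many multiples of `L`. -/
theorem Pencils.section_of_forms (C : Pencils X B L) (T : Two B (X.rl L)) {Cu : X.Currents}
    (Fo : X.Forms Cu L) (hs : ∀ N : ℕ, ∃ m, N < m ∧ ∃ p v, v ≠ 0 ∧ Fo.sec p m v) :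
    ∃ m : ℕ, 0 < m ∧ X.h 0 (m • L) ≠ 0 := by
  by_contra hno
  push Not at hno
  obtain ⟨P⟩ := C.exists_pencil h T hno
  obtain ⟨m, hm, h1⟩ := Pool.Agent.H21.TN.YN.section_of_forms h Fo hs
    (lin B (B.pb (X.rl L)) (B.pb (X.rl L)) (B.pb B.A))
    (fun G => by rw [← K.cl]; exact primeJ (K.pr_X G) T.nef T.nef B.nef_A)
    (fun Q hQ => K.psefJ hQ T.nef T.nef B.nef_A) (cubeJ T _) P
  exact h1 (hno m hm)

/-- Up to multiples there are finitely many classes of prime divisors `G` with `L^2.G = 0`. -/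
theorem Pencils.finite (C : Pencils X B L) (T : Two B (X.rl L))
    (hno : ∀ k : ℕ, 0 < k → X.h 0 (k • L) = 0) :
    ∃ S₀ : Set B.D, S₀.Finite ∧ (∀ F ∈ S₀, B.X F) ∧
      ∀ F, B.X F → J B (B.pb (B.cl F)) (B.pb (X.rl L)) (B.pb (X.rl L)) (B.pb B.A) = 0 →
        ∃ F₀ ∈ S₀, ∃ c : ℝ, 0 < c ∧ B.cl F = c • B.cl F₀ := by
  obtain ⟨P⟩ := C.exists_pencil h T hno
  obtain ⟨S₀, h1, -, h2⟩ := P.finite h
  refine ⟨K.pr '' S₀, h1.image _, ?_, fun G hG h3 => ?_⟩
  · rintro _ ⟨G, _, rfl⟩
    exact K.pr_X G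
  · obtain ⟨G, rfl⟩ := K.pr_onto G hG
    obtain ⟨F₀, h4, c, hc, e⟩ := h2 G (by rw [K.cl] at h3; exact h3)
    exact ⟨K.pr F₀, Set.mem_image_of_mem _ h4, c, hc, by rw [K.cl, K.cl, e]⟩

/-- **Claim F, (ii).** If no positive multiple of `L` has a section then there is a good b-divisor with the
smallest number `L.P.A^(n-2)`, with finitely many components on `X`, and their classes are linearly
independent. -/
theorem Pencils.startD (C : Pencils X B L) (hno : ∀ k : ℕ, 0 < k → X.h 0 (k • L) = 0) :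
    StartD B (X.rl L) := by
  intro T _
  obtain ⟨P, h1, h2, h3, h4⟩ := start T (C.finite K h T hno)
  refine ⟨P, h1, fun w hw => ?_, h3, h4⟩
  rw [← J_AA, ← J_AA]
  exact h2 w hw

end

end Pool.Agent.H21.TN.YN
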